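import Mathlib
import Pool.Agent.H.MP_811251_al.Q

set_option autoImplicit false

namespace Pool.Agent.Results.MP_811251_al.No

open Pool.Agent.H.MP_811251_al

/-- The index `i + j`. -/
def ix (i : Fin 3) (j : Fin 6) : Fin 8 := Fin.ofNat 8 (i + j)

/-- The entry in position `(i, j)` of the generic Hankel matrix with 3 rows and 6 columns. -/
noncomputable def ent (k : Type) [Field k] (i : Fin 3) (j : Fin 6) : MvPolynomial (Fin 8) k :=
  MvPolynomial.X (ix i j)

/-- The ideal generated by the permanents of all submatrices of size two. -/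
noncomputable def P2 (k : Type) [Field k] : Ideal (MvPolynomial (Fin 8) k) :=
  Ideal.span {p | ∃ (i i' : Fin 3) (j j' : Fin 6), i < i' ∧ j < j' ∧
    p = ent k i j * ent k i' j' + ent k i j' * ent k i' j}

lemma table {R : Type} [CommRing R] (y : Fin 8 → R) (c : ∀ a b : R, 2 * a = 2 * b → a = b)
    (h : ∀ (i i' : Fin 3) (j j' : Fin 6), i < i' → j < j' → y (ix i j) * y (ix i' j') +
      y (ix i j') * y (ix i' j) = 0) (a b : Fin 8) :
    ∃ (e : ℤ) (s : Fin 8), (s = 0 → a = 0 ∧ b = 0) ∧ y a * y b = (y 0 + y 7) * (e * y s) := by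
  have h0 : y 0 * y 2 + y 1 * y 1 = 0 := h 0 1 0 1 (by decide) (by decide)
  have h1 : y 0 * y 3 + y 2 * y 1 = 0 := h 0 1 0 2 (by decide) (by decide)
  have h2 : y 0 * y 4 + y 3 * y 1 = 0 := h 0 1 0 3 (by decide) (by decide)
  have h3 : y 0 * y 5 + y 4 * y 1 = 0 := h 0 1 0 4 (by decide) (by decide)
  have h4 : y 0 * y 6 + y 5 * y 1 = 0 := h 0 1 0 5 (by decide) (by decide)
  have h5 : y 1 * y 3 + y 2 * y 2 = 0 := h 0 1 1 2 (by decide) (by decide)
  have h6 : y 1 * y 4 + y 3 * y 2 = 0 := h 0 1 1 3 (by decide) (by decide)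
  have h7 : y 1 * y 5 + y 4 * y 2 = 0 := h 0 1 1 4 (by decide) (by decide)
  have h8 : y 1 * y 6 + y 5 * y 2 = 0 := h 0 1 1 5 (by decide) (by decide)
  have h9 : y 2 * y 4 + y 3 * y 3 = 0 := h 0 1 2 3 (by decide) (by decide)
  have h10 : y 2 * y 5 + y 4 * y 3 = 0 := h 0 1 2 4 (by decide) (by decide)
  have h11 : y 2 * y 6 + y 5 * y 3 = 0 := h 0 1 2 5 (by decide) (by decide)
  have h12 : y 3 * y 5 + y 4 * y 4 = 0 := h 0 1 3 4 (by decide) (by decide)
  have h13 : y 3 * y 6 + y 5 * y 4 = 0 := h 0 1 3 5 (by decide) (by decide)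
  have h14 : y 4 * y 6 + y 5 * y 5 = 0 := h 0 1 4 5 (by decide) (by decide)
  have h16 : y 0 * y 4 + y 2 * y 2 = 0 := h 0 2 0 2 (by decide) (by decide)
  have h17 : y 0 * y 5 + y 3 * y 2 = 0 := h 0 2 0 3 (by decide) (by decide)
  have h18 : y 0 * y 6 + y 4 * y 2 = 0 := h 0 2 0 4 (by decide) (by decide)
  have h19 : y 0 * y 7 + y 5 * y 2 = 0 := h 0 2 0 5 (by decide) (by decide)
  have h21 : y 1 * y 5 + y 3 * y 3 = 0 := h 0 2 1 3 (by decide) (by decide)
  have h22 : y 1 * y 6 + y 4 * y 3 = 0 := h 0 2 1 4 (by decide) (by decide)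
  have h23 : y 1 * y 7 + y 5 * y 3 = 0 := h 0 2 1 5 (by decide) (by decide)
  have h25 : y 2 * y 6 + y 4 * y 4 = 0 := h 0 2 2 4 (by decide) (by decide)
  have h26 : y 2 * y 7 + y 5 * y 4 = 0 := h 0 2 2 5 (by decide) (by decide)
  have h28 : y 3 * y 7 + y 5 * y 5 = 0 := h 0 2 3 5 (by decide) (by decide)
  have h29 : y 4 * y 7 + y 5 * y 6 = 0 := h 0 2 4 5 (by decide) (by decide)
  have h34 : y 1 * y 7 + y 6 * y 2 = 0 := h 1 2 0 5 (by decide) (by decide)
  have h38 : y 2 * y 7 + y 6 * y 3 = 0 := h 1 2 1 5 (by decide) (by decide)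
  have h41 : y 3 * y 7 + y 6 * y 4 = 0 := h 1 2 2 5 (by decide) (by decide)
  have h44 : y 5 * y 7 + y 6 * y 6 = 0 := h 1 2 4 5 (by decide) (by decide)
  wlog hab : a ≤ b generalizing a b
  · obtain ⟨e, s, h1, h2⟩ := this b a (le_of_not_ge hab)
    exact ⟨e, s, fun h => (h1 h).symm, by rw [mul_comm, h2]⟩
  fin_cases a <;> fin_cases b <;> simp only [Fin.reduceFinMk, Fin.zero_eta, Fin.mk_one] at hab ⊢ <;>
    try exact absurd hab (by decide)
  · exact ⟨1, 0, by decide, c _ _ (by push_cast; linear_combination (1) * h8 + (1) * h10 + (-2) * h19 + (-1) * h22)⟩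
  · exact ⟨1, 1, by decide, c _ _ (by push_cast; linear_combination (1) * h11 + (-1) * h23 + (-1) * h34)⟩
  · exact ⟨1, 2, by decide, c _ _ (by push_cast; linear_combination (1) * h13 + (-1) * h26 + (-1) * h38)⟩
  · exact ⟨1, 3, by decide, c _ _ (by push_cast; linear_combination (1) * h14 + (-1) * h28 + (-1) * h41)⟩
  · exact ⟨0, 1, by decide, c _ _ (by push_cast; linear_combination (1) * h2 + (-1) * h5 + (1) * h16)⟩
  · exact ⟨0, 1, by decide, c _ _ (by push_cast; linear_combination (1) * h3 + (-1) * h6 + (1) * h17)⟩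
  · exact ⟨0, 1, by decide, c _ _ (by push_cast; linear_combination (1) * h4 + (-1) * h7 + (1) * h18)⟩
  · exact ⟨0, 1, by decide, c _ _ (by push_cast; linear_combination (-1) * h8 + (-1) * h10 + (2) * h19 + (1) * h22)⟩
  · exact ⟨-1, 2, by decide, c _ _ (by push_cast; linear_combination (-1) * h13 + (1) * h26 + (1) * h38 + (2) * h0)⟩
  · exact ⟨-1, 3, by decide, c _ _ (by push_cast; linear_combination (-1) * h14 + (1) * h28 + (1) * h41 + (2) * h1)⟩
  · exact ⟨0, 1, by decide, c _ _ (by push_cast; linear_combination (1) * h2 + (1) * h5 + (-1) * h16)⟩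
  · exact ⟨0, 1, by decide, c _ _ (by push_cast; linear_combination (1) * h3 + (1) * h6 + (-1) * h17)⟩
  · exact ⟨0, 1, by decide, c _ _ (by push_cast; linear_combination (1) * h4 + (1) * h7 + (-1) * h18)⟩
  · exact ⟨0, 1, by decide, c _ _ (by push_cast; linear_combination (1) * h8 + (-1) * h10 + (1) * h22)⟩
  · exact ⟨0, 1, by decide, c _ _ (by push_cast; linear_combination (-1) * h11 + (1) * h23 + (1) * h34)⟩
  · exact ⟨0, 1, by decide, c _ _ (by push_cast; linear_combination (-1) * h2 + (1) * h5 + (1) * h16)⟩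
  · exact ⟨0, 1, by decide, c _ _ (by push_cast; linear_combination (-1) * h3 + (1) * h6 + (1) * h17)⟩
  · exact ⟨0, 1, by decide, c _ _ (by push_cast; linear_combination (-1) * h4 + (1) * h7 + (1) * h18)⟩
  · exact ⟨0, 1, by decide, c _ _ (by push_cast; linear_combination (1) * h8 + (1) * h10 + (-1) * h22)⟩
  · exact ⟨0, 1, by decide, c _ _ (by push_cast; linear_combination (1) * h11 + (-1) * h12 + (1) * h25)⟩
  · exact ⟨0, 1, by decide, c _ _ (by push_cast; linear_combination (-1) * h13 + (1) * h26 + (1) * h38)⟩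
  · exact ⟨0, 1, by decide, c _ _ (by push_cast; linear_combination (-1) * h7 + (1) * h9 + (1) * h21)⟩
  · exact ⟨0, 1, by decide, c _ _ (by push_cast; linear_combination (-1) * h8 + (1) * h10 + (1) * h22)⟩
  · exact ⟨0, 1, by decide, c _ _ (by push_cast; linear_combination (1) * h11 + (1) * h12 + (-1) * h25)⟩
  · exact ⟨0, 1, by decide, c _ _ (by push_cast; linear_combination (1) * h13 + (-1) * h26 + (1) * h38)⟩
  · exact ⟨0, 1, by decide, c _ _ (by push_cast; linear_combination (-1) * h14 + (1) * h28 + (1) * h41)⟩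
  · exact ⟨0, 1, by decide, c _ _ (by push_cast; linear_combination (-1) * h11 + (1) * h12 + (1) * h25)⟩
  · exact ⟨0, 1, by decide, c _ _ (by push_cast; linear_combination (1) * h13 + (1) * h26 + (-1) * h38)⟩
  · exact ⟨0, 1, by decide, c _ _ (by push_cast; linear_combination (1) * h14 + (-1) * h28 + (1) * h41)⟩
  · exact ⟨1, 4, by decide, c _ _ (by push_cast; linear_combination (-1) * h2 + (1) * h5 + (-1) * h16)⟩
  · exact ⟨0, 1, by decide, c _ _ (by push_cast; linear_combination (1) * h14 + (1) * h28 + (-1) * h41)⟩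
  · exact ⟨-1, 4, by decide, c _ _ (by push_cast; linear_combination (2) * h29 + (1) * h2 + (-1) * h5 + (1) * h16)⟩
  · exact ⟨1, 5, by decide, c _ _ (by push_cast; linear_combination (-1) * h3 + (1) * h6 + (-1) * h17)⟩
  · exact ⟨-1, 5, by decide, c _ _ (by push_cast; linear_combination (2) * h44 + (1) * h3 + (-1) * h6 + (1) * h17)⟩
  · exact ⟨1, 6, by decide, c _ _ (by push_cast; linear_combination (-1) * h4 + (1) * h7 + (-1) * h18)⟩
  · exact ⟨1, 7, by decide, c _ _ (by push_cast; linear_combination (1) * h8 + (1) * h10 + (-2) * h19 + (-1) * h22)⟩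

open Polynomial in
lemma coeffs {k : Type} [Field k] (c : Fin 8 → ℤ) (e : Fin 8 → ℕ)
    (h : ∀ (i i' : Fin 3) (j j' : Fin 6), i < i' → j < j' →
      e (ix i j) + e (ix i' j') = e (ix i j') + e (ix i' j) ∧
      (4 ≤ e (ix i j) + e (ix i' j') ∨
      c (ix i j) * c (ix i' j') + c (ix i j') * c (ix i' j) = 0))
    {f : MvPolynomial (Fin 8) k} (hf : f ∈ P2 k) (d : ℕ) (hd : d < 4) :
    (MvPolynomial.aeval (fun i => (C ((c i : k[X]) * X) * X ^ e i : k[X][X])) f).coeff d = 0 := by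
  have : P2 k ≤ (Ideal.span {(X ^ 4 : k[X][X])}).comap
      (MvPolynomial.aeval fun i => (C ((c i : k[X]) * X) * X ^ e i : k[X][X])) := Ideal.span_le.2 (by
    rintro _ ⟨i, i', j, j', h1, h2, rfl⟩
    obtain ⟨h3, h4⟩ := h i i' j j' h1 h2
    simp only [SetLike.mem_coe, Ideal.mem_comap, ent, map_add, map_mul, MvPolynomial.aeval_X,
      Ideal.mem_span_singleton]
    rw [mul_mul_mul_comm, ← pow_add, mul_mul_mul_comm _ (X ^ _ : k[X][X]) _ (X ^ _), ← pow_add, ← h3, ← add_mul]
    rcases h4 with h4 | h4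
    · exact (pow_dvd_pow _ h4).mul_left _
    · have h5 := congrArg (fun t : ℤ => (C (t : k[X]) : k[X][X])) h4
      simp only [Int.cast_add, Int.cast_mul, map_add, map_mul, Int.cast_zero, map_zero] at h5
      rw [mul_mul_mul_comm, mul_mul_mul_comm _ (C X : k[X][X]) _ (C X), ← add_mul, h5]
      simp)
  exact X_pow_dvd_iff.1 (Ideal.mem_span_singleton.1 (this hf)) d hd

open Polynomial in
lemma fin {k : Type} [Field k] (p : Fin 8 → k[X])
    (m : (MvPolynomial.X 0 + MvPolynomial.X 7) * ∑ i, aeval (MvPolynomial.X 0 + MvPolynomial.X 7) (p i) *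
      (if i = 0 then 1 else MvPolynomial.X i) ∈ P2 k) (i : Fin 8) : p i = 0 := by
  have k1 := coeffs ![1, 1, -1, 1, 0, 0, 0, 0] (fun i => i) (by decide) m
  have k2 := coeffs ![0, 0, 0, 0, 1, -1, 1, 1] (fun i => 7 - i) (by decide) m
  have ae : ∀ q : k[X], aeval (C X : k[X][X]) q = C q := fun q => by
    simpa using aeval_algebraMap_apply k[X][X] (X : k[X]) q
  simp only [map_mul, map_sum, ← aeval_algHom_apply, map_add, MvPolynomial.aeval_X, Fin.sum_univ_eight] at k1 k2
  simp [ae, coeff_C_mul, mul_assoc, coeff_X_pow, coeff_C, coeff_X, -map_neg, -map_intCast, -eq_intCast] at k1 k2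
  have p0 : p 0 = 0 := by simpa using k1 0
  have p1 : p 1 = 0 := by simpa [coeff_X_pow] using k1 1
  have p2 : p 2 = 0 := by simpa [coeff_X_pow] using k1 2
  have p3 : p 3 = 0 := by simpa [coeff_X_pow] using k1 3
  have p7 : p 7 = 0 := by simpa [p0] using k2 0
  have p6 : p 6 = 0 := by simpa [coeff_X_pow] using k2 1
  have p5 : p 5 = 0 := by simpa [coeff_X_pow] using k2 2
  have p4 : p 4 = 0 := by simpa [coeff_X_pow] using k2 3
  fin_cases i <;> assumption

open Polynomial in
theorem result (k : Type) [Field k] (h2 : (2 : k) ≠ 0) :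
    Golod k fun j => Ideal.Quotient.mk (P2 k) (MvPolynomial.X j) := by
  set y := fun j => Ideal.Quotient.mk (P2 k) (MvPolynomial.X j) with hy
  have T := table y (fun a b h => (((IsUnit.mk0 _ h2).map (algebraMap k _)).mul_left_cancel
    (by simpa only [map_ofNat] using h))) fun i i' j j' h1 h2 =>
      Ideal.Quotient.eq_zero_iff_mem.2 (Ideal.subset_span ⟨i, i', j, j', h1, h2, rfl⟩)
  have e : ∑ j, (![1, 0, 0, 0, 0, 0, 0, 1] : Fin 8 → k) j • y j = y 0 + y 7 := by
    simp [Fin.sum_univ_eight]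
  refine golod_min y (fun i hi z hz h => quot_cyc _ (Ideal.span_le.2 ?_) hi hz h) ![1, 0, 0, 0, 0, 0, 0, 1]
    (fun r hr => ?_) fun i j => ?_
  · rintro _ ⟨i, i', j, j', -, -, rfl⟩
    exact add_mem (Ideal.subset_span ⟨_, _, rfl⟩) (Ideal.subset_span ⟨_, _, rfl⟩)
  swap
  · obtain ⟨c, s, -, h⟩ := T i j
    exact ⟨_, Ideal.mul_mem_left _ _ (Ideal.subset_span ⟨s, rfl⟩), e ▸ h⟩
  rw [e] at hr
  letI := (aeval (R := k) (y 0 + y 7)).toRingHom.toAlgebra
  have sm : ∀ (p : k[X]) (a : MvPolynomial (Fin 8) k ⧸ P2 k), p • a = aeval (y 0 + y 7) p * a :=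
    fun _ _ => rfl
  let b : Fin 8 → MvPolynomial (Fin 8) k ⧸ P2 k := fun i => if i = 0 then 1 else y i
  have b0 : ∀ i, b i ∈ Submodule.span k[X] (Set.range b) := fun i => Submodule.subset_span ⟨i, rfl⟩
  have b1 : ∀ j, ∀ a ∈ Submodule.span k[X] (Set.range b), a * y j ∈ Submodule.span k[X] (Set.range b) := by
    intro j a ha
    refine Submodule.span_induction (p := fun a _ => a * y j ∈ Submodule.span k[X] (Set.range b)) ?_
      (by simp) (fun _ _ _ _ h1 h2 => add_mul _ _ (y j) ▸ add_mem h1 h2)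
      (fun p a _ h => by rw [sm, mul_assoc, ← sm]; exact Submodule.smul_mem _ _ h) ha
    rintro _ ⟨i, rfl⟩
    by_cases hi : i = 0
    · by_cases hj : j = 0
      · convert sub_mem (Submodule.smul_mem _ X (b0 0)) (b0 7) using 1
        simp [sm, b, hi, hj]
      · simpa [b, hi, hj] using b0 j
    · obtain ⟨c, s, h1, h⟩ := T i j
      convert Submodule.smul_mem _ (X * (c : k[X])) (b0 s) using 1
      simp [sm, b, hi, h, mt h1 (by simp [hi]), mul_assoc]
  have : r ∈ Submodule.span k[X] (Set.range b) := by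
    obtain ⟨p, rfl⟩ := Ideal.Quotient.mk_surjective r
    clear hr
    induction p using MvPolynomial.induction_on with
    | C c => convert Submodule.smul_mem _ (C c) (b0 0) using 1; simp [sm, b]; rfl
    | add p q hp hq => rw [map_add]; exact add_mem hp hq
    | mul_X p i hp => rw [map_mul]; exact b1 i _ hp
  obtain ⟨p, rfl⟩ := (Submodule.mem_span_range_iff_exists_fun _).1 this
  have m : (MvPolynomial.X 0 + MvPolynomial.X 7) * ∑ i, aeval (MvPolynomial.X 0 + MvPolynomial.X 7) (p i) *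
      (if i = 0 then 1 else MvPolynomial.X i) ∈ P2 k := by
    rw [← Ideal.Quotient.eq_zero_iff_mem, ← hr, map_mul, map_sum]
    congr 1
    refine Finset.sum_congr rfl fun i _ => ?_
    rw [map_mul, sm, ← Ideal.Quotient.mkₐ_eq_mk k, ← aeval_algHom_apply]
    simp only [b]
    split_ifs <;> rfl
  simp [sm, fin p m]

end Pool.Agent.Results.MP_811251_al.No
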